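import Pool.Agent.W912.ND.Defs

/-! Task ND-ONE: a fixed circuit of small depth does not compute all chains. -/

set_option autoImplicit false

namespace Pool.Agent.W563.ND

open Pool.Agent.NPC Pool.Agent.H620R2.Gauge Pool.Agent.H622R2.Ckt H568R2 Pool.Agent.H676
open Pool.Agent.W900.CH Filter Pool.Agent.W912.ND
open Pool.Agent.W912.SE (cw)

theorem cw_inj {i i' : ℕ} {z z' y y' : List Bool} (h : cw i z y = cw i' z' y')
    (hz : z.length = z'.length) : i = i' ∧ z = z' ∧ y = y' := by
  unfold cw at h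
  have h1 : ∀ (a b : ℕ) (l l' : List Bool), List.replicate a true ++ false :: l =
      List.replicate b true ++ false :: l' → a = b ∧ l = l' := by
    intro a
    induction a with
    | zero =>
      intro b l l' h
      cases b with
      | zero => simpa using h
      | succ b => simp [List.replicate_succ] at h
    | succ a ih =>
      intro b l l' h
      cases b with
      | zero => simp [List.replicate_succ] at h
      | succ b =>
        simp only [List.replicate_succ, List.cons_append, List.cons.injEq, true_and] at h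
        obtain ⟨h1, h2⟩ := ih b l l' h
        exact ⟨by omega, h2⟩
  obtain ⟨h2, h3⟩ := h1 _ _ _ _ h
  obtain ⟨h4, h5⟩ := List.append_inj h3 hz
  exact ⟨h2, h4, h5⟩

theorem length_cw (i : ℕ) (z y : List Bool) : (cw i z y).length = i + 1 + z.length + y.length := by
  unfold cw
  simp only [List.length_append, List.length_replicate, List.length_cons]
  ring

section

variable {N D m : ℕ}

theorem pos_lt (hN : ∀ y : List Bool, y.length ≤ D + 2 * m + 1 → idx y < N) (k : ℕ)
    (x : Fin m → Bool) (j : Fin m) : idx (cw j.val (bitsOf D k) (List.ofFn x)) < N := by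
  apply hN
  rw [length_cw, length_bitsOf, List.length_ofFn]
  have := j.2
  omega

/-- the position of a bit of the next node -/
def ps (hN : ∀ y : List Bool, y.length ≤ D + 2 * m + 1 → idx y < N) (k : ℕ)
    (x : Fin m → Bool) (j : Fin m) : Fin N :=
  ⟨idx (cw j.val (bitsOf D k) (List.ofFn x)), pos_lt hN k x j⟩

theorem ps_inj (hN : ∀ y : List Bool, y.length ≤ D + 2 * m + 1 → idx y < N) {k k' : ℕ}
    {x x' : Fin m → Bool} {j j' : Fin m} (hk : k < 2 ^ D) (hk' : k' < 2 ^ D)
    (h : ps hN k x j = ps hN k' x' j') : k = k' ∧ x = x' ∧ j = j' := by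
  have h1 : idx (cw j.val (bitsOf D k) (List.ofFn x)) =
      idx (cw j'.val (bitsOf D k') (List.ofFn x')) := congrArg Fin.val h
  have h2 : cw j.val (bitsOf D k) (List.ofFn x) = cw j'.val (bitsOf D k') (List.ofFn x') := by
    rw [← str_idx (cw j.val (bitsOf D k) (List.ofFn x)), h1, str_idx]
  obtain ⟨h3, h4, h5⟩ := cw_inj h2 (by rw [length_bitsOf, length_bitsOf])
  exact ⟨bitsOf_inj hk hk' h4, List.ofFn_injective h5, Fin.ext h3⟩

theorem ow_ps (hN : ∀ y : List Bool, y.length ≤ D + 2 * m + 1 → idx y < N) (k : ℕ)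
    (x : Fin m → Bool) (j : Fin m) (Sh : Finset (Fin N))
    (hSh : ∀ i ∈ Sh, (str i.val).length ≤ D) (π a : Fin N → Bool) :
    ow Sh π a (ps hN k x j) = a (ps hN k x j) := by
  unfold ow
  rw [if_neg]
  intro h
  have h1 := hSh _ h
  have h2 : (str (ps hN k x j).val) = cw j.val (bitsOf D k) (List.ofFn x) := str_idx _
  rw [h2, length_cw, length_bitsOf] at h1
  omega

theorem chain_eq (hN : ∀ y : List Bool, y.length ≤ D + 2 * m + 1 → idx y < N) (k : ℕ)
    (Sh : Finset (Fin N)) (hSh : ∀ i ∈ Sh, (str i.val).length ≤ D) (π a : Fin N → Bool) (i : ℕ) :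
    chain (orc N (ow Sh π a)) (bitsOf D k) m i =
      List.ofFn ((nxt (ps hN k) a)^[i] (fun _ => false)) := by
  induction i with
  | zero => simp [chain, List.ofFn_const]
  | succ i ih =>
    rw [chain, ih, Function.iterate_succ_apply']
    apply List.ext_getElem
    · simp
    · intro n h1 h2
      have hn : n < m := by simpa using h1
      simp only [List.getElem_map, List.getElem_range, List.getElem_ofFn]
      show orc N (ow Sh π a) (cw n (bitsOf D k)
        (List.ofFn ((nxt (ps hN k) a)^[i] (fun _ => false)))) =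
        a (ps hN k ((nxt (ps hN k) a)^[i] (fun _ => false)) ⟨n, hn⟩)
      rw [← ow_ps hN k _ ⟨n, hn⟩ Sh hSh π a]
      unfold orc
      rw [dif_pos (pos_lt hN k _ ⟨n, hn⟩)]
      rfl

end

theorem one (h1 : S_RQD) (h2 : S_RQ) (h3 : S_BLOCK1) (h4 : S_SEQ1) (h5 : S_EXOW) : S_ONE := by
  intro N D m t s d K C hm hD hN hdC hsC hdt h8 hK
  set Sh : Finset (Fin N) := Finset.univ.filter (fun i => (str i.val).length ≤ D) with hSh
  have hSh1 : ∀ i ∈ Sh, (str i.val).length ≤ D := fun i hi => (Finset.mem_filter.1 hi).2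
  have hSh2 : ∀ i : Fin N, (str i.val).length ≤ D → i ∈ Sh :=
    fun i hi => Finset.mem_filter.2 ⟨Finset.mem_univ _, hi⟩
  set w := Nat.clog 2 (D + 1) with hw
  have hw1 : 1 ≤ w := Nat.clog_pos (by norm_num) (by omega)
  set r := depth C / w with hr
  have hrt : r < t := lt_of_le_of_lt (Nat.div_le_div_right hdC) hdt
  rw [h5 (Fin N) Sh]
  refine (Ex_mono unif_nonneg (G := fun _ => ((3 : ℝ) / 4) ^ K) fun π => ?_).trans
    (Ex_const unif_sum _).le
  have hseq := h4 (Fin N) (Fin (2 ^ D)) (RQ s r) (t * s) (m * 2 ^ m) K (5 / 8) (1 / 8)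
    (fun k => Finset.univ.image (fun p : Fin m × (Fin m → Bool) => ps hN k.val p.2 p.1))
    (fun k a c => decide (c = ((nxt (ps hN k.val) a)^[t] (fun _ => false)) ⟨0, hm⟩))
    (fun k a => C.eval (orc N (ow Sh π a)) (bitsOf D k.val))
    (by norm_num) (by norm_num)
    (fun g hg => ((h1 (Fin N) s r g hg).1).mono (Nat.mul_le_mul_right _ hrt.le))
    (fun g i b hg => (h1 (Fin N) s r g hg).2.1 i b)
    (fun k => by
      refine Finset.card_image_le.trans ?_
      rw [Finset.card_univ]
      simp)
    (fun k k' hk => by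
      rw [Finset.disjoint_left]
      intro i hi hi'
      obtain ⟨p, -, hp⟩ := Finset.mem_image.1 hi
      obtain ⟨p', -, hp'⟩ := Finset.mem_image.1 hi'
      exact hk (Fin.ext (ps_inj hN k.2 k'.2 (hp.trans hp'.symm)).1))
    (fun k a a' c h => by
      have h6 : nxt (ps hN k.val) a = nxt (ps hN k.val) a' := by
        funext x j
        exact h _ (Finset.mem_image.2 ⟨(j, x), Finset.mem_univ _, rfl⟩)
      simp only [h6])
    (fun k g hg => by
      have h6 := h3 (Fin N) m s r t hm (ps hN k.val) g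
        (fun x j x' j' h => (ps_inj hN k.2 k.2 h).2) hrt hg
      simp only [decide_eq_true_eq]
      refine h6.trans ?_
      have h7 : (8 : ℝ) * (t : ℝ) ^ 2 * (s + 1) ≤ 2 ^ m := by exact_mod_cast h8
      have h9 : (t : ℝ) ^ 2 * (s + 1) / 2 ^ m ≤ 1 / 8 := by
        rw [div_le_iff₀ (by positivity)]
        linarith
      linarith)
    (fun k => h2 N D w s Sh π C (bitsOf D k.val) hSh2 hw1 le_rfl hsC)
    (by
      rw [Fintype.card_fin]
      have h7 : (8 : ℝ) * K * (t * s + m * 2 ^ m) ≤ 2 ^ D := by exact_mod_cast hK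
      push_cast
      linarith)
  have hcard : (Fintype.card (Fin K → Fin (2 ^ D)) : ℝ) = ((2 : ℝ) ^ D) ^ K := by simp
  have hpos : (0 : ℝ) < ((2 : ℝ) ^ D) ^ K := by positivity
  rw [Fintype.card_fin] at hseq
  refine le_of_mul_le_mul_left ?_ hpos
  have h9 : ((2 : ℝ) ^ D) ^ K * (3 / 4) ^ K = ((5 / 8 + 1 / 8) * ((2 ^ D : ℕ) : ℝ)) ^ K := by
    rw [← mul_pow]
    congr 1
    push_cast
    ring
  rw [h9]
  refine le_trans ?_ hseq
  rw [← hcard, ← Finset.card_univ, ← nsmul_eq_mul, ← Finset.sum_const]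
  refine Finset.sum_le_sum fun σ _ => Ex_mono unif_nonneg fun a => ?_
  by_cases hall : ∀ z : List Bool, z.length = D →
      C.eval (orc N (ow Sh π a)) z = (chain (orc N (ow Sh π a)) z m t).getD 0 false
  · rw [if_pos hall, if_pos]
    intro j
    rw [decide_eq_true_eq, hall _ (length_bitsOf _ _), chain_eq hN _ Sh hSh1 π a t]
    rw [List.getD_eq_getElem _ _ (by rw [List.length_ofFn]; exact hm), List.getElem_ofFn]
  · rw [if_neg hall]
    split_ifs
    · exact zero_le_one
    · exact le_rfl

end Pool.Agent.W563.ND
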